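import Pool.Agent.Q161.ESV.Stm2
import Pool.Agent.Q193.ESN.LCG

/-!
# Project ESV (helper161), job LCT: the type of a ramified prime
-/

set_option autoImplicit false

namespace Pool.Agent.Q110.ESV

open NumberField IsDedekindDomain Finset
open Pool.Agent.Q51.EL (Abv Par)
open Pool.Agent.Q161.ESV

theorem lct : S_CHI → S_LCT := by
  intro hchi F K _ _ _ _ _ _ W _ _ V _ _ _ e i hW hSt hV2
  obtain ⟨B0, hB0, hB⟩ := Pool.Agent.Q224.ESM.frx K
  obtain ⟨B2, hB2, hunr⟩ := hW.unr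
  refine ⟨B0 * B2, mul_ne_zero hB0 hB2, ?_⟩
  intro B hBB hBne D hD c hc2 Δ hK l _ hlB w hw hlD ψ hψ
  have hl : l.Prime := Fact.out
  have hlB0 : ¬ l ∣ B0 := fun h => hlB ((h.mul_right _).trans hBB)
  have hlB2 : ¬ l ∣ B2 := fun h => hlB ((h.mul_left _).trans hBB)
  have hvD : w.valuation K (algebraMap F K (D : F)) = WithZero.exp (-1 : ℤ) := by
    obtain ⟨v, hv⟩ := Pool.Agent.Q149.ESM.exists_blw (algebraMap F K) w l hl.ne_zero hw
    have h1 := Pool.Agent.Q149.ESM.val_blw (algebraMap F K) hl.ne_zero (hB l hl hlB0).1 hw hv (D : F)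
    have hvl' : Abv v l := by
      show (l : 𝓞 F) ∈ v.asIdeal
      rw [hv, map_natCast]
      exact hw
    have h2 : w.valuation K (algebraMap F K (D : F)) < 1 :=
      (Pool.Agent.Q124.ESM.mem_of_val_lt (iO F K D)).2 hlD
    rw [h1] at h2 ⊢
    rcases hD.2 l hl hlB v hvl' with h3 | h3
    · exact absurd h3 h2.ne
    · exact h3
  have hC := (hchi F).1 (D : F)
  obtain ⟨hpm, -, hroot, -⟩ := hC
  have hne0 : ∀ s : AlgebraicClosure F, s = -s → s = 0 := by
    intro s hs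
    have : (2 : AlgebraicClosure F) * s = 0 := by linear_combination hs
    exact (mul_eq_zero.1 this).resolve_left two_ne_zero
  have hsq : ∀ x : AlgebraicClosure F, ∃ s, s ^ 2 = x := fun x =>
    IsAlgClosed.exists_pow_nat_eq x (by norm_num)
  have hDne : (D : F) ≠ 0 := by
    intro h
    exact hD.1 (RingOfIntegers.coe_injective (h.trans (map_zero (algebraMap (𝓞 F) F)).symm))
  have hDne' : algebraMap F (AlgebraicClosure F) (D : F) ≠ 0 := (map_ne_zero _).2 hDne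
  obtain ⟨s2, hs2⟩ := hsq (algebraMap F (AlgebraicClosure F) (D : F))
  have hs2ne : s2 ≠ 0 := by
    rintro rfl
    apply hDne'
    rw [← hs2]
    simp
  have heD : e (algebraMap F K (D : F)) = algebraMap F (AlgebraicClosure F) (D : F) := e.commutes _
  have part1 : ∃ σ ∈ Ine ψ, chi (D : F) σ = -1 := by
    obtain ⟨σ, hσ, -, hs⟩ := hψ.ram (algebraMap F K (D : F)) ⟨-1, by rw [hvD]; norm_num⟩ s2
      (by rw [hs2, heD])
    refine ⟨σ, hσ, (hpm σ).resolve_left fun h => hs2ne (hne0 s2 ?_)⟩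
    have h1 := hroot σ s2 hs2
    rw [h, one_smul] at h1
    rw [← hs, h1]
  refine ⟨part1, fun P hP => ?_⟩
  have hID : ∀ σ ∈ Ine ψ, σ ∈ Dec ψ := by
    rintro σ ⟨τ, h1, -⟩
    exact ⟨τ, h1⟩
  obtain ⟨σ1, hσ1, hχ1⟩ := part1
  have htt : (P + P) + (P + P) = 0 := by
    have h1 := hc2 σ1
    rw [hP σ1 (hID σ1 hσ1)] at h1
    have h2 : cob W (D : F) P σ1 = chi (D : F) σ1 • σ1 • P - P := rfl
    rw [h2, hχ1, hunr l hlB2 ψ σ1 hσ1 P] at h1
    have h3 : (-1 : ℤ) • P - P + ((-1 : ℤ) • P - P) = -((P + P) + (P + P)) := by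
      rw [neg_smul, one_smul]
      abel
    rw [h3] at h1
    exact neg_eq_zero.1 h1
  obtain ⟨v, hv⟩ := (hSt.im (P + P)).1 htt
  refine ⟨v, hv, ?_⟩
  -- the values of the cocycle on inertia
  have hc1 : ∀ σ ∈ Ine ψ, chi (D : F) σ = 1 → c σ = i 0 := by
    intro σ hσ h
    rw [hP σ (hID σ hσ), map_zero]
    show chi (D : F) σ • σ • P - P = 0
    rw [h, hunr l hlB2 ψ σ hσ P, one_smul, sub_self]
  have hc3 : ∀ σ ∈ Ine ψ, chi (D : F) σ = -1 → c σ = i v := by
    intro σ hσ h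
    rw [hP σ (hID σ hσ), hv]
    show chi (D : F) σ • σ • P - P = P + P
    rw [h, hunr l hlB2 ψ σ hσ P, neg_smul, one_smul]
    have h4 : -P - P = (P + P) - ((P + P) + (P + P)) := by abel
    rw [h4, htt, sub_zero]
  intro χ
  have htw : tw (1 : K ≃ₐ[F] K) χ = χ := by
    ext x
    show χ ((1 : K ≃ₐ[F] K) • x) = χ x
    rw [one_smul]
  have hval : w.valuation K (Δ χ) ≠ 0 := (Valuation.ne_zero_iff _).2 (hK.ne χ)
  obtain ⟨m, hm⟩ : ∃ m : ℤ, w.valuation K (Δ χ) = WithZero.exp m :=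
    ⟨WithZero.log (w.valuation K (Δ χ)), (WithZero.exp_log hval).symm⟩
  obtain ⟨s1, hs1⟩ := hsq (e (Δ χ))
  have hs1ne : s1 ≠ 0 := by
    rintro rfl
    apply hK.ne χ
    apply (map_eq_zero e).1
    rw [← hs1]
    simp
  have hgal : ∀ σ : GF F, Rs e σ 1 → ∀ v' : V, c σ = i v' → σ s1 = if χ v' = 1 then -s1 else s1 := by
    intro σ hσ v' hv'
    exact hK.gal χ σ 1 hσ htw v' hv'.symm s1 hs1
  have h01 : χ v = 0 ∨ χ v = 1 := by
    have : ∀ z : ZMod 2, z = 0 ∨ z = 1 := by decide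
    exact this _
  rcases h01 with h0 | h1
  · rw [h0]
    rcases Int.even_or_odd' m with ⟨k, hk | hk⟩
    · refine ⟨k, ?_⟩
      rw [hm, hk]
      simp
    · exfalso
      obtain ⟨σ, hσ, hr, hs⟩ := hψ.ram (Δ χ) ⟨k, by rw [hm, hk, add_comm]⟩ s1 hs1
      have h2 : σ s1 = s1 := by
        rcases hpm σ with h | h
        · rw [hgal σ hr 0 (hc1 σ hσ h)]
          simp
        · rw [hgal σ hr v (hc3 σ hσ h), h0]
          simp
      rw [h2] at hs
      exact hs1ne (hne0 s1 hs)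
  · rw [h1]
    rcases Int.even_or_odd' m with ⟨k, hk | hk⟩
    · exfalso
      have hy : w.valuation K (Δ χ * algebraMap F K (D : F)) = WithZero.exp (1 + 2 * (k - 1)) := by
        rw [map_mul, hm, hvD, ← WithZero.exp_add, hk]
        congr 1
        ring
      obtain ⟨σ, hσ, hr, hs⟩ := hψ.ram (Δ χ * algebraMap F K (D : F)) ⟨k - 1, hy⟩ (s1 * s2)
        (by rw [mul_pow, hs1, hs2, map_mul, heD])
      have h2 : σ (s1 * s2) = s1 * s2 := by
        rw [map_mul, hroot σ s2 hs2]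
        rcases hpm σ with h | h
        · rw [hgal σ hr 0 (hc1 σ hσ h), h]
          simp
        · rw [hgal σ hr v (hc3 σ hσ h), h1, h]
          simp
      rw [h2] at hs
      exact mul_ne_zero hs1ne hs2ne (hne0 _ hs)
    · refine ⟨k, ?_⟩
      rw [hm, hk, add_comm]
      rfl

end Pool.Agent.Q110.ESV
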